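import Pool.Agent.Helper65_PV.Stmts

set_option autoImplicit false

open MeasureTheory Metric Set Filter Topology TopologicalSpace

namespace PV.H76

/-- A convex body as a nonempty compact set. -/
def toNC {n : ℕ} (K : ConvexBody (E n)) : NonemptyCompacts (E n) :=
  ⟨⟨(K : Set (E n)), K.isCompact⟩, K.nonempty⟩

theorem isometry_toNC {n : ℕ} : Isometry (toNC (n := n)) := by
  intro K L
  rw [← ConvexBody.hausdorffEDist_coe]
  rfl

theorem isClosed_convex {n : ℕ} :
    IsClosed {K : NonemptyCompacts (E n) | Convex ℝ (K : Set (E n))} := by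
  rw [← isSeqClosed_iff_isClosed]
  intro K K' hK hlim
  rw [Set.mem_ofPred_eq]
  intro x hx y hy a b ha hb hab
  have hcl : IsClosed (K' : Set (E n)) := K'.isCompact.isClosed
  rw [hcl.mem_iff_infDist_zero K'.nonempty]
  apply le_antisymm _ infDist_nonneg
  apply le_of_forall_pos_le_add
  intro e he
  rw [zero_add]
  rw [Metric.tendsto_atTop] at hlim
  obtain ⟨N, hN⟩ := hlim (e / 2) (by positivity)
  have h1 : dist (K N) K' < e / 2 := hN N le_rfl
  rw [NonemptyCompacts.dist_eq] at h1
  have hfin : hausdorffEDist ((K N : NonemptyCompacts (E n)) : Set (E n)) (K' : Set (E n)) ≠ ⊤ :=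
    hausdorffEDist_ne_top_of_nonempty_of_bounded (K N).nonempty K'.nonempty
      (K N).isCompact.isBounded K'.isCompact.isBounded
  obtain ⟨x1, hx1, hxd⟩ := exists_dist_lt_of_hausdorffDist_lt' hx h1 hfin
  obtain ⟨y1, hy1, hyd⟩ := exists_dist_lt_of_hausdorffDist_lt' hy h1 hfin
  have hz : a • x1 + b • y1 ∈ ((K N : NonemptyCompacts (E n)) : Set (E n)) :=
    hK N hx1 hy1 ha hb hab
  obtain ⟨z, hz', hzd⟩ := exists_dist_lt_of_hausdorffDist_lt hz h1 hfin
  have h2 : dist (a • x + b • y) (a • x1 + b • y1) ≤ e / 2 := by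
    rw [dist_eq_norm]
    have e1 : a • x + b • y - (a • x1 + b • y1) = a • (x - x1) + b • (y - y1) := by
      rw [smul_sub, smul_sub]; abel
    rw [e1]
    refine (norm_add_le _ _).trans ?_
    rw [norm_smul, norm_smul, Real.norm_of_nonneg ha, Real.norm_of_nonneg hb]
    rw [dist_comm, dist_eq_norm] at hxd hyd
    have i1 : a * ‖x - x1‖ ≤ a * (e / 2) := mul_le_mul_of_nonneg_left hxd.le ha
    have i2 : b * ‖y - y1‖ ≤ b * (e / 2) := mul_le_mul_of_nonneg_left hyd.le hb
    calc a * ‖x - x1‖ + b * ‖y - y1‖ ≤ a * (e / 2) + b * (e / 2) := add_le_add i1 i2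
      _ = (a + b) * (e / 2) := by ring
      _ = e / 2 := by rw [hab, one_mul]
  have h3 : dist (a • x + b • y) z ≤ e := by
    have := dist_triangle (a • x + b • y) (a • x1 + b • y1) z
    linarith
  exact (infDist_le_dist_of_mem hz').trans h3

theorem range_toNC {n : ℕ} :
    range (toNC (n := n)) = {K : NonemptyCompacts (E n) | Convex ℝ (K : Set (E n))} := by
  ext K
  constructor
  · rintro ⟨L, rfl⟩
    exact L.convex
  · intro hK
    exact ⟨⟨(K : Set (E n)), hK, K.isCompact, K.nonempty⟩, rfl⟩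

theorem cs : CSStmt := by
  intro n
  rw [completeSpace_iff_isComplete_range (isometry_toNC (n := n)).isUniformInducing, range_toNC]
  exact isClosed_convex.isComplete

end PV.H76
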