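import Pool.Agent.Helper65_PV.Stmts

set_option autoImplicit false

open MeasureTheory Metric Set Filter Topology

namespace PV.H76

/-- A ball inside a convex body survives (with half radius) a small perturbation. -/
theorem ball_subset {n : ℕ} (K K2 : ConvexBody (E n)) (x : E n) (r : ℝ)
    (hx : ball x r ⊆ (K : Set (E n))) (hd : dist K K2 < r / 2) :
    ball x (r / 2) ⊆ (K2 : Set (E n)) := by
  intro y hy
  by_contra hyn
  obtain ⟨s, hs1, hs2⟩ := exists_between hd
  have hs0 : 0 ≤ s := le_trans dist_nonneg hs1.le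
  obtain ⟨z, hz, hzy⟩ := exists_norm_eq_iInf_of_complete_convex K2.nonempty
    K2.isCompact.isComplete K2.convex y
  rw [norm_eq_iInf_iff_real_inner_le_zero K2.convex hz] at hzy
  have hyz : y - z ≠ 0 := by
    intro h0
    exact hyn (by rw [sub_eq_zero.1 h0]; exact hz)
  have hn : 0 < ‖y - z‖ := norm_pos_iff.2 hyz
  obtain ⟨v, hv⟩ : ∃ v : E n, v = (‖y - z‖)⁻¹ • (y - z) := ⟨_, rfl⟩
  have hv1 : ‖v‖ = 1 := by
    rw [hv, norm_smul, norm_inv, norm_norm, inv_mul_cancel₀ hn.ne']
  have hyK : y + s • v ∈ (K : Set (E n)) := by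
    apply hx
    rw [mem_ball, dist_eq_norm]
    have h1 : y + s • v - x = (y - x) + s • v := by abel
    rw [h1]
    have h2 : ‖y - x‖ < r / 2 := by rwa [mem_ball, dist_eq_norm] at hy
    have h3 : ‖s • v‖ = s := by rw [norm_smul, hv1, mul_one, Real.norm_of_nonneg hs0]
    have h4 := norm_add_le (y - x) (s • v)
    linarith
  have hfin : hausdorffEDist (K : Set (E n)) (K2 : Set (E n)) ≠ ⊤ :=
    ConvexBody.hausdorffEDist_ne_top
  obtain ⟨w, hw, hwd⟩ := exists_dist_lt_of_hausdorffDist_lt hyK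
    (show hausdorffDist (K : Set (E n)) (K2 : Set (E n)) < s from hs1) hfin
  have h5 := hzy w hw
  have h6 : inner ℝ v (y + s • v - w) = ‖y - z‖ + s - (‖y - z‖)⁻¹ * inner ℝ (y - z) (w - z) := by
    have e1 : y + s • v - w = (y - z) + s • v - (w - z) := by abel
    rw [e1, inner_sub_right, inner_add_right, inner_smul_right, real_inner_self_eq_norm_sq, hv1]
    have e2 : inner ℝ v (y - z) = ‖y - z‖ := by
      rw [hv, real_inner_smul_left, real_inner_self_eq_norm_sq]
      field_simp
    have e3 : inner ℝ v (w - z) = (‖y - z‖)⁻¹ * inner ℝ (y - z) (w - z) := by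
      rw [hv, real_inner_smul_left]
    rw [e2, e3]; ring
  have h7 : inner ℝ v (y + s • v - w) ≤ ‖y + s • v - w‖ := by
    have := real_inner_le_norm v (y + s • v - w)
    rwa [hv1, one_mul] at this
  have h8 : (‖y - z‖)⁻¹ * inner ℝ (y - z) (w - z) ≤ 0 :=
    mul_nonpos_of_nonneg_of_nonpos (inv_nonneg.2 hn.le) h5
  rw [dist_eq_norm] at hwd
  linarith

theorem fo : FOStmt := by
  intro n
  rw [Metric.isOpen_iff]
  intro K hK
  obtain ⟨x, hx⟩ := hK
  obtain ⟨r, hr, hb⟩ := Metric.isOpen_iff.1 isOpen_interior x hx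
  refine ⟨r / 2, by positivity, ?_⟩
  intro K2 hK2
  rw [mem_ball, dist_comm] at hK2
  have h1 := ball_subset K K2 x r (hb.trans interior_subset) hK2
  refine ⟨x, ?_⟩
  exact interior_maximal h1 isOpen_ball (mem_ball_self (by positivity))

end PV.H76
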